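import Pool.Agent.Helper1.T1.Goals

/-! T1-AREA, packet 13694: the area of a guillotine cut. -/

set_option autoImplicit false

namespace Pool.Agent.Helper95.T1.AREA

open Pool.Agent.Helper1.All

theorem t : Pool.Agent.Helper1.T1.S_AREA := by
  intro n μ W H A hC
  induction hC with
  | piece i hw hh =>
    refine ⟨hw, hh, ?_, ?_⟩
    · intro j hj
      rw [Finset.mem_singleton] at hj
      rw [hj]
      exact hw
    · rw [Finset.sum_singleton, sq]
  | hor W₁ W₂ H A B hAB _ _ ihA ihB =>
    obtain ⟨h1, h2, h3, h4⟩ := ihA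
    obtain ⟨k1, k2, k3, k4⟩ := ihB
    refine ⟨add_pos h1 k1, h2, ?_, ?_⟩
    · intro i hi
      rcases Finset.mem_union.1 hi with hi | hi
      · exact h3 i hi
      · exact k3 i hi
    · rw [Finset.sum_union hAB, h4, k4]
      ring
  | ver W H₁ H₂ A B hAB _ _ ihA ihB =>
    obtain ⟨h1, h2, h3, h4⟩ := ihA
    obtain ⟨k1, k2, k3, k4⟩ := ihB
    refine ⟨h1, add_pos h2 k2, ?_, ?_⟩
    · intro i hi
      rcases Finset.mem_union.1 hi with hi | hi
      · exact h3 i hi
      · exact k3 i hi
    · rw [Finset.sum_union hAB, h4, k4]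
      ring

end Pool.Agent.Helper95.T1.AREA
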